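import Pool.Agent.H683.SC.PosPStm

/-!
# The algorithm for the subgraph component polynomial: one letter in polynomial time
-/

set_option autoImplicit false

namespace Pool.Agent.NPC.H924SP

open Turing Pool.Agent.NPC Pool.Agent.H633R2 Pool.Agent.H683.MC Pool.Agent.H683.SC

section

variable {α β : Type} [TEnc α] [TEnc β]

theorem find?P {l : α → List β} {p : α → β → Bool} (hl : Poly l)
    (hp : Poly (fun x : α × β => p x.1 x.2)) : Poly (fun a => (l a).find? (p a)) :=
  (Poly.head? (Poly.filter hl hp)).congr fun a => by rw [List.head?_filter]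

theorem setP {l : α → List β} {n : α → ℕ} {x : α → β} (hl : Poly l) (hn : Poly n) (hx : Poly x) :
    Poly (fun a => (l a).set (n a) (x a)) := by
  refine (Poly.map (l := fun a => (l a).zipIdx)
    (F := fun a (p : β × ℕ) => if p.2 = n a then x a else p.1) (Poly.zipIdx hl) ?_).congr
    fun a => ?_
  · exact Poly.ite (p := fun y : α × (β × ℕ) => y.2.2 = n y.1)
      (Poly.decide_eq (Poly.snd (Poly.snd Poly.id)) (hn.comp (Poly.fst Poly.id)))
      (hx.comp (Poly.fst Poly.id)) (Poly.fst (Poly.snd Poly.id))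
  · apply List.ext_getElem
    · simp
    · intro i h1 h2
      simp only [List.getElem_map, List.getElem_zipIdx, Nat.zero_add, List.getElem_set]
      by_cases h : i = n a
      · simp [h]
      · have h' : ¬ n a = i := fun h3 => h h3.symm
        simp [h, h']

theorem idxOf_key (x : ℕ) : ∀ (l : List ℕ) (k : ℕ),
    (match ((l.zipIdx k).filter (fun p => decide (p.1 = x))).head? with
      | none => l.length + k
      | some p => p.2) = l.idxOf x + k := by
  intro l
  induction l with
  | nil => intro k; simp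
  | cons b l ih =>
    intro k
    rw [List.zipIdx_cons, List.filter_cons]
    by_cases h : b = x
    · subst h
      simp
    · have h' : decide ((b, k).1 = x) = false := by simp [h]
      rw [h']
      simp only [Bool.false_eq_true, if_false]
      have h1 := ih (k + 1)
      have h2 : (b :: l).length + k = l.length + (k + 1) := by simp; omega
      have h3 : (b :: l).idxOf x + k = l.idxOf x + (k + 1) := by
        rw [List.idxOf_cons_ne _ h]; omega
      rw [h2, h3, ← h1]

theorem idxOfP {l : α → List ℕ} {x : α → ℕ} (hl : Poly l) (hx : Poly x) :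
    Poly (fun a => (l a).idxOf (x a)) := by
  refine (Poly.optCases
    (o := fun a => ((l a).zipIdx.filter (fun p => decide (p.1 = x a))).head?)
    (g := fun a => (l a).length) (h := fun _ (p : ℕ × ℕ) => p.2) ?_ (Poly.length hl)
    (Poly.snd (Poly.snd Poly.id))).congr fun a => ?_
  · exact Poly.head? (Poly.filter (p := fun a (p : ℕ × ℕ) => decide (p.1 = x a)) (Poly.zipIdx hl)
      (Poly.decide_eq (Poly.fst (Poly.snd Poly.id)) (hx.comp (Poly.fst Poly.id))))
  · have h := idxOf_key (x a) (l a) 0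
    simp only [Nat.add_zero] at h
    rw [← h]
    cases ((l a).zipIdx.filter (fun p => decide (p.1 = x a))).head? <;> rfl

theorem lkP {st : α → List (List ℕ)} {tb σ : α → List ℕ} (hst : Poly st) (htb : Poly tb)
    (hσ : Poly σ) : Poly (fun a => lk (st a) (tb a) (σ a)) := by
  refine (Poly.optCases
    (o := fun a => ((st a).zip (tb a)).find? (fun p => decide (p.1 = σ a)))
    (g := fun _ => 0) (h := fun _ (p : List ℕ × ℕ) => p.2) ?_ (Poly.const 0)
    (Poly.snd (Poly.snd Poly.id))).congr fun a => ?_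
  · exact find?P (p := fun a (p : List ℕ × ℕ) => decide (p.1 = σ a)) (Poly.zip hst htb)
      (Poly.decide_eq (Poly.fst (Poly.snd Poly.id)) (hσ.comp (Poly.fst Poly.id)))
  · unfold lk
    cases ((st a).zip (tb a)).find? (fun p => decide (p.1 = σ a)) <;> rfl

theorem eqP {x y : α → ℕ} (hx : Poly x) (hy : Poly y) : Poly (fun a => decide (x a = y a)) :=
  Poly.decide_eq hx hy

theorem szSP {q s : α → ℕ} (hq : Poly q) (hs : Poly s) : Poly (fun a => szS (q a) (s a)) :=
  Poly.ite (p := fun a => s a = 0) (eqP hs (Poly.const 0)) (Poly.const 0)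
    (Poly.ite (p := fun a => s a = 1) (eqP hs (Poly.const 1)) hq (Poly.const 1))

theorem frsP {D σ : α → List ℕ} (hD : Poly D) (hσ : Poly σ) :
    Poly (fun a => frs (D a).length (σ a)) := by
  refine (Poly.optCases
    (o := fun a => (List.range (D a).length).find? (fun c => !decide (c + 2 ∈ σ a)))
    (g := fun _ => 0) (h := fun _ (c : ℕ) => c) ?_ (Poly.const 0)
    (Poly.snd Poly.id)).congr fun a => ?_
  · exact find?P (p := fun a (c : ℕ) => !decide (c + 2 ∈ σ a)) (Poly.range_length hD)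
      (Poly.not (Poly.decide_mem (Poly.add (Poly.snd Poly.id) (Poly.const 2))
        (hσ.comp (Poly.fst Poly.id))))
  · unfold frs
    cases (List.range (D a).length).find? (fun c => !decide (c + 2 ∈ σ a)) <;> rfl

theorem colsP {D : α → List ℕ} {q x y fr : α → ℕ} (hD : Poly D) (hq : Poly q) (hx : Poly x)
    (hy : Poly y) (hf : Poly fr) :
    Poly (fun a => cols (D a).length (q a) (x a) (y a) (fr a)) := by
  have h0 : Poly (fun a => (List.range (D a).length).map fun c =>
      (c, if c = fr a then 1 + (q a - (D a).length) else 1)) := by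
    refine Poly.map (F := fun a (c : ℕ) => (c, if c = fr a then 1 + (q a - (D a).length) else 1))
      (Poly.range_length hD) (Poly.pair (Poly.snd Poly.id) ?_)
    exact Poly.ite (p := fun p : α × ℕ => p.2 = fr p.1)
      (eqP (Poly.snd Poly.id) (hf.comp (Poly.fst Poly.id)))
      (Poly.add (Poly.const 1) (Poly.sub (hq.comp (Poly.fst Poly.id))
        (Poly.length (hD.comp (Poly.fst Poly.id))))) (Poly.const 1)
  have hone : ∀ {z : α → ℕ}, Poly z → Poly (fun a => [(z a - 2, 1)]) := fun hz =>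
    Poly.cons (Poly.pair (Poly.sub hz (Poly.const 2)) (Poly.const 1)) (Poly.const [])
  exact Poly.ite (p := fun a => x a = 0 ∨ y a = 0)
    (Poly.decide_or (eqP hx (Poly.const 0)) (eqP hy (Poly.const 0))) (Poly.const [])
    (Poly.ite (p := fun a => x a = 1) (eqP hx (Poly.const 1))
      (Poly.ite (p := fun a => y a = 1) (eqP hy (Poly.const 1)) h0 (hone hy))
      (Poly.ite (p := fun a => y a = 1 ∨ x a = y a)
        (Poly.decide_or (eqP hy (Poly.const 1)) (eqP hx hy)) (hone hx) (Poly.const [])))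

theorem jnP {N : α → ℕ → ℕ → ℕ} (hN : Poly (fun p : α × ℕ × ℕ => N p.1 p.2.1 p.2.2))
    {x y : α → ℕ} (hx : Poly x) (hy : Poly y) {cs : α → List (ℕ × ℕ)} (hcs : Poly cs) :
    Poly (fun a => jn (N a) (x a) (y a) (cs a)) := by
  have hN1 : ∀ {u v : α → ℕ}, Poly u → Poly v → Poly (fun a => N a (u a) (v a)) :=
    fun hu hv => hN.comp (Poly.pair Poly.id (Poly.pair hu hv))
  have hN2 : ∀ {u v : α × (ℕ × ℕ) → ℕ}, Poly u → Poly v →
      Poly (fun p : α × (ℕ × ℕ) => N p.1 (u p) (v p)) :=
    fun hu hv => hN.comp (Poly.pair (Poly.fst Poly.id) (Poly.pair hu hv))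
  have hc1 : Poly (fun p : α × (ℕ × ℕ) => p.2.1 + 2) :=
    Poly.add (Poly.fst (Poly.snd Poly.id)) (Poly.const 2)
  have hc2 : Poly (fun p : α × (ℕ × ℕ) => p.2.2) := Poly.snd (Poly.snd Poly.id)
  have h0 : Poly (fun _ : α => 0) := Poly.const 0
  have h0' : Poly (fun _ : α × (ℕ × ℕ) => 0) := Poly.const 0
  have hm1 : Poly (fun a => ((cs a).map fun c =>
      c.2 * (N a (c.1 + 2) (c.1 + 2) + N a 0 0)).sum) :=
    Poly.sum (Poly.map (F := fun a (c : ℕ × ℕ) => c.2 * (N a (c.1 + 2) (c.1 + 2) + N a 0 0)) hcs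
      (Poly.mul hc2 (Poly.add (hN2 hc1 hc1) (hN2 h0' h0'))))
  have hm2 : Poly (fun a => ((cs a).map fun c =>
      c.2 * (N a (c.1 + 2) 0 + N a 0 (c.1 + 2))).sum) :=
    Poly.sum (Poly.map (F := fun a (c : ℕ × ℕ) => c.2 * (N a (c.1 + 2) 0 + N a 0 (c.1 + 2))) hcs
      (Poly.mul hc2 (Poly.add (hN2 hc1 h0') (hN2 h0' hc1))))
  exact Poly.sub (Poly.add (Poly.add (hN1 h0 hy) (hN1 hx h0)) hm1) (Poly.add (hN1 h0 h0) hm2)

theorem jvP {D : α → List ℕ} {q : α → ℕ} {st : α → List (List ℕ)} {tb : α → List ℕ}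
    {u v : α → ℕ} {σ : α → List ℕ} (hD : Poly D) (hq : Poly q) (hst : Poly st) (htb : Poly tb)
    (hu : Poly u) (hv : Poly v) (hσ : Poly σ) :
    Poly (fun a => jv (D a) (q a) (lk (st a) (tb a)) (u a) (v a) (σ a)) := by
  have hN : Poly (fun p : α × ℕ × ℕ => lk (st p.1) (tb p.1)
      (((σ p.1).set ((D p.1).idxOf (u p.1)) p.2.1).set ((D p.1).idxOf (v p.1)) p.2.2)) := by
    have f : Poly (fun p : α × ℕ × ℕ => p.1) := Poly.fst Poly.id
    exact lkP (hst.comp f) (htb.comp f)
      (setP (setP (hσ.comp f) (idxOfP (hD.comp f) (hu.comp f)) (Poly.fst (Poly.snd Poly.id)))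
        (idxOfP (hD.comp f) (hv.comp f)) (Poly.snd (Poly.snd Poly.id)))
  have hi := idxOfP hD hu
  have hj := idxOfP hD hv
  have hx := Poly.getD hσ hi (Poly.const 0)
  have hy := Poly.getD hσ hj (Poly.const 0)
  exact jnP (N := fun a x y => lk (st a) (tb a)
      (((σ a).set ((D a).idxOf (u a)) x).set ((D a).idxOf (v a)) y)) hN hx hy
    (colsP hD hq hx hy (frsP hD (setP (setP hσ hi (Poly.const 0)) hj (Poly.const 0))))

end

theorem PTST : S_PTST := by
  intro α _ D X q st s o hD hX hq hst hs ho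
  have f : Poly (fun p : α × List ℕ => p.1) := Poly.fst Poly.id
  have g : Poly (fun p : α × List ℕ => p.2) := Poly.snd Poly.id
  have h1 : Poly (fun a => (o a).1) := Poly.fst ho
  have h2 : Poly (fun a => (o a).2.1) := Poly.fst (Poly.snd ho)
  have h3 : Poly (fun a => (o a).2.2) := Poly.snd (Poly.snd ho)
  have hs0 : Poly (fun a => (s a).getD 0 []) := Poly.getD hs (Poly.const 0) (Poly.const [])
  have hs1 : Poly (fun a => (s a).getD 1 []) := Poly.getD hs (Poly.const 1) (Poly.const [])
  have hd1 : Poly (fun a => (s a).drop 1) := (Poly.tail hs).congr fun a => by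
    rw [List.drop_one]
  have hd2 : Poly (fun a => (s a).drop 2) := (Poly.tail (Poly.tail hs)).congr fun a => by
    rcases s a with _ | ⟨x, _ | ⟨y, l⟩⟩ <;> rfl
  have c0 : Poly (fun a => ((st a).map fun σ => 1 + X a * szS (q a) (σ.getD ((D a).idxOf
      (o a).2.1) 0)) :: s a) := by
    refine Poly.cons (Poly.map (F := fun a (σ : List ℕ) => 1 + X a * szS (q a) (σ.getD
      ((D a).idxOf (o a).2.1) 0)) hst ?_) hs
    exact Poly.add (Poly.const 1) (Poly.mul (hX.comp f) (szSP (hq.comp f)
      (Poly.getD g (idxOfP (hD.comp f) (h2.comp f)) (Poly.const 0))))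
  have c1 : Poly (fun a => ((st a).map fun σ => lk (st a) ((s a).getD 1 []) σ *
      lk (st a) ((s a).getD 0 []) σ) :: (s a).drop 2) := by
    refine Poly.cons (Poly.map (F := fun a (σ : List ℕ) => lk (st a) ((s a).getD 1 []) σ *
      lk (st a) ((s a).getD 0 []) σ) hst ?_) hd2
    exact Poly.mul (lkP (hst.comp f) (hs1.comp f) g) (lkP (hst.comp f) (hs0.comp f) g)
  have c2 : Poly (fun a => ((st a).map fun σ => jv (D a) (q a) (lk (st a) ((s a).getD 0 []))
      (o a).2.1 (o a).2.2 σ) :: (s a).drop 1) := by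
    refine Poly.cons (Poly.map (F := fun a (σ : List ℕ) => jv (D a) (q a)
      (lk (st a) ((s a).getD 0 [])) (o a).2.1 (o a).2.2 σ) hst ?_) hd1
    exact jvP (hD.comp f) (hq.comp f) (hst.comp f) (hs0.comp f) (h2.comp f) (h3.comp f) g
  have c3 : Poly (fun a => ((st a).map fun σ => lk (st a) ((s a).getD 0 [])
      (σ.set ((D a).idxOf (o a).2.1) (σ.getD ((D a).idxOf (o a).2.2) 0))) :: (s a).drop 1) := by
    refine Poly.cons (Poly.map (F := fun a (σ : List ℕ) => lk (st a) ((s a).getD 0 [])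
      (σ.set ((D a).idxOf (o a).2.1) (σ.getD ((D a).idxOf (o a).2.2) 0))) hst ?_) hd1
    exact lkP (hst.comp f) (hs0.comp f) (setP g (idxOfP (hD.comp f) (h2.comp f))
      (Poly.getD g (idxOfP (hD.comp f) (h3.comp f)) (Poly.const 0)))
  exact Poly.ite (p := fun a => (o a).1 = 0) (eqP h1 (Poly.const 0)) c0
    (Poly.ite (p := fun a => (o a).1 = 1) (eqP h1 (Poly.const 1)) c1
      (Poly.ite (p := fun a => (o a).1 = 2) (eqP h1 (Poly.const 2)) c2 c3))

end Pool.Agent.NPC.H924SP
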